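import Pool.Agent.Results.MP_2a5a28_nt.WindowsWithoutExceptions
import Pool.Agent.H107.MetricZero
import Pool.Agent.H2N.NearSpace

/-!
# The abc conjecture over the integers of `ℚ(√5)` for all triples near almost every point

For almost every pair `(z₁, z₂)` of real numbers, all `s > 10 / 37` and all `κ`, ALL triples `a + b + c = 0` in lowest terms
of integers of `K = ℚ(√5)`, `abc ≠ 0`, of sufficiently large height `H` whose ratio `a / c` and its conjugate are within
`H ^ (-s)` of `z₁` and of `z₂` have a radical larger than `κ H`. By Dirichlet's theorem there are infinitely many such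
triples, up to units, for all `(z₁, z₂)` and `s < 1`. For almost every real number `z` the same holds with
`|a / c - z| ≤ H ^ (-s)`, `s > 20 / 37` (there are infinitely many such triples for `s < 2`).
-/

set_option autoImplicit false

namespace Pool.Agent.Results.MP_2a5a28_nt.NearAlmostEveryPoint

open NumberField IsDedekindDomain MeasureTheory
open ExceptionalSet (Triple height rad)
open WindowsWithoutExceptions (height_unit)

variable {K : Type} [Field K] [NumberField K]

/-- the ratio `a / c` of the triple `(a, b, c)` -/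
noncomputable def ratio (t : 𝓞 K × 𝓞 K × 𝓞 K) : K := (t.1 : K) / (t.2.2 : K)

section Aux

lemma cop {t : 𝓞 K × 𝓞 K × 𝓞 K} (ht : Triple t) : IsCoprime t.1 t.2.2 := by
  obtain ⟨a, b, c⟩ := t
  obtain ⟨h1, h2, h3⟩ := ht
  dsimp only at h1 h2 h3 ⊢
  have hb : b = -a - c := by
    have : a + b + c = 0 := h1
    linear_combination this
  have h4 : (1 : 𝓞 K) ∈ Ideal.span {a, b, c} := by rw [h3]; trivial
  rw [Ideal.mem_span_insert] at h4
  obtain ⟨x, w, hw, h5⟩ := h4
  rw [Ideal.mem_span_pair] at hw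
  obtain ⟨y, z, hyz⟩ := hw
  refine ⟨x - y, z - y, ?_⟩
  rw [h5, ← hyz, hb]
  ring

/-- triples in lowest terms with the same ratio differ by a unit -/
lemma height_eq {t t' : 𝓞 K × 𝓞 K × 𝓞 K} (ht : Triple t) (ht' : Triple t') (h : ratio t = ratio t') :
    height t = height t' := by
  have hc := cop ht
  have hc' := cop ht'
  obtain ⟨a, b, c⟩ := t
  obtain ⟨a', b', c'⟩ := t'
  obtain ⟨h1, h2, -⟩ := ht
  obtain ⟨h1', h2', -⟩ := ht'
  dsimp only at h1 h2 h1' h2' hc hc'
  have hc0 : c ≠ 0 := right_ne_zero_of_mul h2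
  have hc0' : c' ≠ 0 := right_ne_zero_of_mul h2'
  have e1 : a * c' = a' * c := by
    unfold ratio at h
    dsimp only at h
    have g1 : (c : K) ≠ 0 := by
      intro g
      exact hc0 (RingOfIntegers.ext g)
    have g2 : (c' : K) ≠ 0 := by
      intro g
      exact hc0' (RingOfIntegers.ext g)
    rw [div_eq_div_iff g1 g2] at h
    apply RingOfIntegers.ext
    push_cast
    exact h
  have d1 : c ∣ c' := hc.symm.dvd_of_dvd_mul_left ⟨a', by rw [e1]; ring⟩
  have d2 : c' ∣ c := hc'.symm.dvd_of_dvd_mul_left ⟨a, by rw [← e1]; ring⟩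
  obtain ⟨u, hu⟩ := associated_of_dvd_dvd d1 d2
  have ea : a' = u * a := by
    have : a' * c = u * a * c := by
      rw [← e1, ← hu]
      ring
    exact mul_right_cancel₀ hc0 this
  have ec : c' = u * c := by rw [← hu]; ring
  have eb : b' = u * b := by
    have g1 : b = -a - c := by linear_combination h1
    have g2 : b' = -a' - c' := by linear_combination h1'
    rw [g2, g1, ea, ec]
    ring
  have := height_unit u (a, b, c)
  dsimp only at this
  rw [← ea, ← eb, ← ec] at this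
  exact this.symm

open Classical in
/-- the height of the triple with a given ratio -/
noncomputable def hr (r : K) : ℝ :=
  if h : ∃ t : 𝓞 K × 𝓞 K × 𝓞 K, Triple t ∧ ratio t = r then max 1 (height h.choose) else 1

lemma one_le_hr (r : K) : 1 ≤ hr r := by
  unfold hr
  split_ifs with h
  · exact le_max_left _ _
  · exact le_rfl

lemma hr_eq {t : 𝓞 K × 𝓞 K × 𝓞 K} (ht : Triple t) : hr (ratio t) = max 1 (height t) := by
  have h : ∃ t' : 𝓞 K × 𝓞 K × 𝓞 K, Triple t' ∧ ratio t' = ratio t := ⟨t, ht, rfl⟩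
  unfold hr
  rw [dif_pos h, height_eq h.choose_spec.1 ht h.choose_spec.2]

/-- the exceptional ratios -/
def Bad (K : Type) [Field K] [NumberField K] (κ : ℝ) : Set K :=
  {r | ∃ t : 𝓞 K × 𝓞 K × 𝓞 K, Triple t ∧ ratio t = r ∧ rad t ≤ κ * height t}

lemma count (hd : Module.finrank ℚ K = 2) (h5 : ∃ s : K, s ^ 2 = 5) (κ ε : ℝ) (hε : 0 < ε) :
    ∃ C : ℝ, ∀ X : ℝ, 1 ≤ X → {r | r ∈ Bad K κ ∧ hr r ≤ X}.Finite ∧
      ({r | r ∈ Bad K κ ∧ hr r ≤ X}.ncard : ℝ) ≤ C * X ^ (20 / 37 + ε) := by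
  classical
  obtain ⟨C, hC⟩ := ExceptionalSet.result K hd h5 κ ε hε
  refine ⟨C, fun X hX => ?_⟩
  have key : ∀ F : Finset K, (F : Set K) ⊆ {r | r ∈ Bad K κ ∧ hr r ≤ X} → (F.card : ℝ) ≤ C * X ^ (20 / 37 + ε) := by
    intro F hF
    have hch : ∀ r : K, ∃ t : 𝓞 K × 𝓞 K × 𝓞 K, r ∈ F → (Triple t ∧ ratio t = r ∧ rad t ≤ κ * height t) := by
      intro r
      by_cases hr : r ∈ F
      · obtain ⟨t, ht⟩ := (hF hr).1
        exact ⟨t, fun _ => ht⟩
      · exact ⟨0, fun h => absurd h hr⟩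
    choose g hg using hch
    have hinj : Set.InjOn g (F : Set K) := by
      intro x hx y hy hxy
      have h1 := (hg x hx).2.1
      have h2 := (hg y hy).2.1
      rw [← h1, ← h2, hxy]
    have hcard : (F.image g).card = F.card := Finset.card_image_of_injOn hinj
    rw [← hcard]
    apply hC X hX
    · intro t ht
      obtain ⟨x, hx, rfl⟩ := Finset.mem_image.1 ht
      obtain ⟨h1, h2, h3⟩ := hg x hx
      have h4 : hr x ≤ X := (hF hx).2
      rw [← h2, hr_eq h1] at h4
      exact ⟨h1, (le_max_right _ _).trans h4, h3⟩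
    · intro t ht s hs u hu
      obtain ⟨x, hx, rfl⟩ := Finset.mem_image.1 ht
      obtain ⟨y, hy, rfl⟩ := Finset.mem_image.1 hs
      have h1 := (hg x hx).2.1
      have h2 := (hg y hy).2.1
      have h3 : y = x := by
        rw [← h1, ← h2, hu]
        unfold ratio
        dsimp only
        push_cast
        have hu0 : ((u : 𝓞 K) : K) ≠ 0 := by
          intro h0
          exact u.ne_zero (RingOfIntegers.ext h0)
        rw [mul_div_mul_left _ _ hu0]
      rw [h3]
  have hfin : {r | r ∈ Bad K κ ∧ hr r ≤ X}.Finite := by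
    by_contra hinf
    obtain ⟨F, hF, hF2⟩ := (show {r | r ∈ Bad K κ ∧ hr r ≤ X}.Infinite from hinf).exists_subset_card_eq
      (⌊C * X ^ (20 / 37 + ε)⌋₊ + 1)
    have h1 := key F hF
    rw [hF2] at h1
    push_cast at h1
    exact absurd h1 (not_le.2 (Nat.lt_floor_add_one _))
  refine ⟨hfin, ?_⟩
  rw [Set.ncard_eq_toFinset_card _ hfin]
  exact key _ (by simp)

/-- from finitely many exceptional ratios to all triples of large height -/
lemma large_of {κ s : ℝ} {j : ℕ} (hj : κ ≤ j) {M : Type} [MetricSpace M] {φ : K → M} {z : M}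
    (h : {r | r ∈ Bad K (j : ℝ) ∧ dist (φ r) z ≤ hr r ^ (-s)}.Finite) :
    ∃ H₀ : ℝ, ∀ t : 𝓞 K × 𝓞 K × 𝓞 K, Triple t → H₀ ≤ height t → dist (φ (ratio t)) z ≤ height t ^ (-s) →
      κ * height t < rad t := by
  obtain ⟨B, hB⟩ := (h.image hr).bddAbove
  refine ⟨max 1 (B + 1), fun t ht hH hnear => ?_⟩
  have h1 : 1 ≤ height t := (le_max_left _ _).trans hH
  have h2 : hr (ratio t) = height t := by rw [hr_eq ht, max_eq_right h1]
  by_contra hcon
  push Not at hcon
  have h3 : hr (ratio t) ≤ B := hB ⟨ratio t, ⟨⟨t, ht, rfl, hcon.trans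
    (mul_le_mul_of_nonneg_right hj (by linarith))⟩, by rw [h2]; exact hnear⟩, rfl⟩
  rw [h2] at h3
  have h4 := (le_max_right 1 (B + 1)).trans hH
  linarith

end Aux

/-- **Theorem.** Let `K = ℚ(√5)`. (1) For any two real embeddings `σ₁`, `σ₂` of `K` and almost every `(z₁, z₂) ∈ ℝ ^ 2`, for
all `s > 10 / 37` and all `κ` there is `H₀` such that ALL triples `a + b + c = 0` in lowest terms with `abc ≠ 0`, height
`H ≥ H₀` and `|σ_i (a / c) - z_i| ≤ H ^ (-s)` have a radical larger than `κ H`. (2) For a real embedding `σ` of `K` and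
almost every real `z`, for all `s > 20 / 37` and all `κ` there is `H₀` such that ALL triples with `H ≥ H₀` and
`|σ (a / c) - z| ≤ H ^ (-s)` have a radical larger than `κ H`. (3) For every map `φ` from `K` to a metric space `M` and
every `s > 0` there is a set `E ⊆ M` of Hausdorff dimension at most `20 / (37 s)` such that for all `z` outside `E` and all
`κ` there is `H₀` such that ALL triples with `H ≥ H₀` and `dist (φ (a / c), z) ≤ H ^ (-s)` have a radical larger than
`κ H`. -/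
theorem result : ∀ (K : Type) [Field K] [NumberField K], Module.finrank ℚ K = 2 → (∃ s : K, s ^ 2 = 5) →
    (∀ σ₁ σ₂ : K →+* ℝ, ∀ᵐ z : ℝ × ℝ, ∀ s κ : ℝ, 10 / 37 < s → ∃ H₀ : ℝ, ∀ t : 𝓞 K × 𝓞 K × 𝓞 K, Triple t →
      H₀ ≤ height t → |σ₁ (ratio t) - z.1| ≤ height t ^ (-s) → |σ₂ (ratio t) - z.2| ≤ height t ^ (-s) →
        κ * height t < rad t) ∧
    (∀ σ : K →+* ℝ, ∀ᵐ z : ℝ, ∀ s κ : ℝ, 20 / 37 < s → ∃ H₀ : ℝ, ∀ t : 𝓞 K × 𝓞 K × 𝓞 K, Triple t →
      H₀ ≤ height t → |σ (ratio t) - z| ≤ height t ^ (-s) → κ * height t < rad t) ∧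
    (∀ (M : Type) [MetricSpace M] (φ : K → M) (s : ℝ), 0 < s → ∃ E : Set M,
      dimH E ≤ ENNReal.ofReal (20 / (37 * s)) ∧ ∀ z : M, z ∉ E → ∀ κ : ℝ, ∃ H₀ : ℝ,
        ∀ t : 𝓞 K × 𝓞 K × 𝓞 K, Triple t → H₀ ≤ height t → dist (φ (ratio t)) z ≤ height t ^ (-s) →
          κ * height t < rad t) := by
  intro K _ _ hd h5
  refine ⟨fun σ₁ σ₂ => ?_, fun σ => ?_, fun M _ φ s hs => ?_⟩
  · have hfr : Module.finrank ℝ (ℝ × ℝ) = 2 := by rw [Module.finrank_prod, Module.finrank_self]
    have h1 := Pool.Agent.H2N.ae_family_space (volume : Measure (ℝ × ℝ)) (by rw [hfr]; norm_num)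
      (fun r : K => (σ₁ r, σ₂ r)) hr one_le_hr (s := 20 / 37) (by norm_num) (J := ℕ) (fun j => Bad K (j : ℝ))
      (fun j => count hd h5 j)
    filter_upwards [h1] with z hz s κ hs
    obtain ⟨j, hj⟩ := exists_nat_ge κ
    obtain ⟨H₀, hH⟩ := large_of hj (hz s (by rw [hfr]; norm_num; linarith) j)
    refine ⟨H₀, fun t ht hHt h2 h3 => hH t ht hHt ?_⟩
    rw [Prod.dist_eq]
    exact max_le h2 h3
  · have h1 := Pool.Agent.H2N.ae_family_space (volume : Measure ℝ) (by rw [Module.finrank_self]; norm_num)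
      (fun r : K => σ r) hr one_le_hr (s := 20 / 37) (by norm_num) (J := ℕ) (fun j => Bad K (j : ℝ))
      (fun j => count hd h5 j)
    filter_upwards [h1] with z hz s κ hs
    obtain ⟨j, hj⟩ := exists_nat_ge κ
    obtain ⟨H₀, hH⟩ := large_of hj (hz s (by rw [Module.finrank_self]; norm_num; linarith) j)
    exact ⟨H₀, fun t ht hHt h2 => hH t ht hHt h2⟩
  · obtain ⟨E, hE1, hE2⟩ := Pool.Agent.H107.ME.dim_family φ hr one_le_hr (s := 20 / 37) (by norm_num) hs (J := ℕ)
      (fun j => Bad K (j : ℝ)) (fun j => count hd h5 j)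
    rw [div_div] at hE1
    refine ⟨E, hE1, fun z hz κ => ?_⟩
    obtain ⟨j, hj⟩ := exists_nat_ge κ
    exact large_of hj (hE2 z hz j)

end Pool.Agent.Results.MP_2a5a28_nt.NearAlmostEveryPoint
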