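import Pool.Agent.Results.MP_2a5a28_nt.AllThinSetsAtOnce
import Pool.Agent.V11326.WOE

/-!
# The abc inequality over `ℤ[(1 + √5) / 2]` for ALL triples, of whatever height, with radicals in windows

Let `K = ℚ(√5)`, `M > 1 / 3` and let `v_n ≥ 1` be a sequence, for example `v_n = 2 ^ n`. For all real `β` outside a set `F` of
Hausdorff dimension less than one (and of measure zero) and all `c > 0`: if `n` is large, then ALL triples `a + b + c = 0`
of integers of `K` in lowest terms with `abc ≠ 0`, of whatever height, with `|rad ^ (2 / 3) - β v_n| ≤ v_n ^ θ` satisfy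
`H(a, b, c) < c rad ^ M`. There are `X ^ (2 / 3 + o(1))` triples, up to units, with `rad ≤ X`.

More generally, let `D ≥ 1`, `q ≥ 3` and `M > D / q`. There is `η > 0` such that for all `β` outside a small set `F`, all
`c > 0` and all large `n`, the inequality `H(a, b, c) < c rad ^ M` holds for ALL triples with
`|rad ^ (2 / q) - β v_n| ≤ v_n ^ θ` on ALL curves `t ↦ (P 0 (t) : P 1 (t) : P 2 (t))` of degree `D` and height at most
`η log v_n`, all of whose `q` points over the three points with `abc = 0` are defined over `K`.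

The proof combines the starting result `AllThinSetsAtOnce` with a covering argument. The definitions of `Triple`, `height`,
`rad`, `Curve`, `IsClass` are those of that file.
-/

set_option autoImplicit false

namespace Pool.Agent.Results.MP_2a5a28_nt.RadicalWindows

open NumberField IsDedekindDomain Polynomial MeasureTheory
open Pool.Agent.Results.MP_2a5a28_nt.AllThinSetsAtOnce
open Pool.Agent.Y557.U
open Pool.Agent.TH876.TM (supp)

variable {K : Type} [Field K] [NumberField K]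

/-- The exponent of convergence of the sequence `v` is at most `τ`: the sum of the `v_n ^ (-p)` converges for all
`p > τ`. -/
def ExpLe (v : ℕ → ℝ) (τ : ℝ) : Prop := ∀ p : ℝ, τ < p → Summable fun n => (v n) ^ (-p)

/-- The point `(a : b : c)` given by the triple `t = (a, b, c)` is on the curve. -/
def OnCurve (D : ℕ) (P : Fin 3 → K[X]) (t : 𝓞 K × 𝓞 K × 𝓞 K) : Prop := ∃ Q, IsClass D P Q t

/-- the logarithm of the radical as a function of the class -/
noncomputable def logRad (Q : Projectivization K (Fin 3 → K)) : ℝ :=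
  dgr K * rS ((∅ : Finset (HeightOneSpectrum (𝓞 K))) : Set (HeightOneSpectrum (𝓞 K))) Q.rep

theorem logRad_eq (hK : Module.finrank ℚ K = 2) {D : ℕ} {P : Fin 3 → K[X]} {Q : Projectivization K (Fin 3 → K)}
    {t : 𝓞 K × 𝓞 K × 𝓞 K} (ht : Triple t) (hQ : IsClass D P Q t) : logRad Q = Real.log (rad t) := by
  obtain ⟨τ, hx, hQ, s, hs, e0, e1, e2⟩ := hQ
  obtain ⟨a, ha⟩ := Projectivization.exists_smul_eq_mk_rep K (coordinates D P τ) hx
  rw [← hQ] at ha
  have ha' : (a : K) • coordinates D P τ = Q.rep := ha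
  have ha0 : (a : K) ≠ 0 := a.ne_zero
  have key : ∀ i, s * coordinates D P τ i = s / (a : K) * Q.rep i := by
    intro i
    rw [← ha', Pi.smul_apply, smul_eq_mul]
    field_simp
  obtain ⟨-, k2, -⟩ := class_eq ht (y := Q.rep) (div_ne_zero hs ha0) (e0.trans (key 0)) (e1.trans (key 1))
    (e2.trans (key 2))
  have hd : (dgr K : ℝ) ≠ 0 := by
    rw [dgr_eq hK]
    norm_num
  unfold logRad
  rw [k2]
  field_simp

theorem curve_mono {D q : ℕ} {B B' : ℝ} {P : Fin 3 → K[X]} (h : Curve D q B P) (hB : B ≤ B') : Curve D q B' P :=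
  ⟨h.ne_zero, h.sum_zero, h.coprime, h.splits, h.degree_le, h.degree_eq, h.points, h.height_le.trans hB⟩

/-- the curve `t ↦ (t : 1 : -(t + 1))` -/
noncomputable def line (K : Type) [Field K] : Fin 3 → K[X] := ![X, 1, -(X + C 1)]

theorem line_curve : ∃ B : ℝ, Curve 1 3 B (line K) := by
  classical
  have hne : (X + C 1 : K[X]) ≠ 0 := X_add_C_ne_zero 1
  have hprod : ∏ i, line K i = -(X * (X + C 1)) := by
    rw [Fin.prod_univ_three]
    show X * 1 * -(X + C 1) = -(X * (X + C 1))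
    ring
  have hdeg : ∀ i, (line K i).natDegree ≤ 1 := by
    intro i
    fin_cases i
    · show (X : K[X]).natDegree ≤ 1
      rw [natDegree_X]
    · show (1 : K[X]).natDegree ≤ 1
      rw [natDegree_one]
      norm_num
    · show (-(X + C 1) : K[X]).natDegree ≤ 1
      rw [natDegree_neg, natDegree_X_add_C]
  refine ⟨_, ⟨fun i => ?_, ?_, ?_, fun i => Splits.of_natDegree_le_one (hdeg i), hdeg, ⟨0, natDegree_X⟩, ?_, le_rfl⟩⟩
  · fin_cases i
    · exact X_ne_zero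
    · exact one_ne_zero
    · exact neg_ne_zero.2 hne
  · show X + 1 + -(X + C 1) = (0 : K[X])
    rw [C_1]
    ring
  · exact isCoprime_one_right
  · unfold zeros
    have h1 : (∏ i, line K i).roots = ({0} : Multiset K) + {-1} := by
      rw [hprod, roots_neg, roots_mul (mul_ne_zero X_ne_zero hne), roots_X, roots_X_add_C]
    have h2 : (({0} : Multiset K) + {-1}).Nodup := by
      rw [Multiset.singleton_add, Multiset.nodup_cons]
      refine ⟨?_, Multiset.nodup_singleton _⟩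
      rw [Multiset.mem_singleton]
      exact (neg_ne_zero.2 one_ne_zero).symm
    rw [h1, Multiset.toFinset_card_of_nodup h2, if_pos ⟨1, by
      show (1 : K[X]).natDegree < 1
      rw [natDegree_one]
      norm_num⟩]
    rfl

theorem on_line {t : 𝓞 K × 𝓞 K × 𝓞 K} (ht : Triple t) : OnCurve 1 (line K) t := by
  have hn := ht.ne
  have hb : ((t.2.1 : 𝓞 K) : K) ≠ 0 := fun h3 =>
    right_ne_zero_of_mul (left_ne_zero_of_mul hn) (RingOfIntegers.coe_eq_zero_iff.1 h3)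
  have hsum : ((t.1 : 𝓞 K) : K) + (t.2.1 : 𝓞 K) + (t.2.2 : 𝓞 K) = 0 := by
    have h1 := congrArg (algebraMap (𝓞 K) K) ht.sum
    rw [map_add, map_add, map_zero] at h1
    exact h1
  obtain ⟨a, ha⟩ : ∃ a : K, a = ((t.1 : 𝓞 K) : K) := ⟨_, rfl⟩
  obtain ⟨b, hb'⟩ : ∃ b : K, b = ((t.2.1 : 𝓞 K) : K) := ⟨_, rfl⟩
  obtain ⟨c, hc⟩ : ∃ c : K, c = ((t.2.2 : 𝓞 K) : K) := ⟨_, rfl⟩
  rw [← ha, ← hb', ← hc] at hsum
  rw [← hb'] at hb
  have e0 : coordinates 1 (line K) (some (a / b)) 0 = a / b := by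
    show (X : K[X]).eval (a / b) = a / b
    rw [eval_X]
  have e1 : coordinates 1 (line K) (some (a / b)) 1 = 1 := by
    show (1 : K[X]).eval (a / b) = 1
    rw [eval_one]
  have e2 : coordinates 1 (line K) (some (a / b)) 2 = -(a / b + 1) := by
    show (-(X + C 1) : K[X]).eval (a / b) = -(a / b + 1)
    rw [eval_neg, eval_add, eval_X, eval_C]
  have hx : coordinates 1 (line K) (some (a / b)) ≠ 0 := by
    intro h0
    have h1 := congrFun h0 1
    rw [e1] at h1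
    exact one_ne_zero h1
  refine ⟨Projectivization.mk K _ hx, some (a / b), hx, rfl, b, hb, ?_, ?_, ?_⟩
  · rw [e0, ← ha]
    field_simp
  · rw [e1, ← hb', mul_one]
  · rw [e2, ← hc]
    field_simp
    linear_combination hsum

theorem curves (hK : Module.finrank ℚ K = 2) (h5 : ∃ s : K, s ^ 2 = 5) (D q : ℕ) (hD : 1 ≤ D) (hq : 3 ≤ q) (M : ℝ)
    (hM : (D : ℝ) / q < M) : ∃ η ν : ℝ, 0 < η ∧ 0 < ν ∧ ν ≤ 1 ∧ ∀ (v : ℕ → ℝ) (τ θ : ℝ), (∀ n, 1 ≤ v n) → 0 ≤ τ →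
      ExpLe v τ → θ < 1 → ∃ F : Set ℝ, dimH F ≤ ENNReal.ofReal ((1 - ν + τ) / (1 - θ)) ∧ (τ + θ < ν → volume F = 0) ∧
        ∀ β : ℝ, β ∉ F → ∀ c : ℝ, 0 < c → ∃ n₀ : ℕ, ∀ n : ℕ, n₀ ≤ n →
          ∀ P : Fin 3 → K[X], Curve D q (η * Real.log (v n)) P → ∀ t : 𝓞 K × 𝓞 K × 𝓞 K, Triple t → OnCurve D P t →
            |rad t ^ (2 / (q : ℝ)) - β * v n| ≤ (v n) ^ θ → height t < c * rad t ^ M := by
  obtain ⟨-, -, h2, -⟩ := AllThinSetsAtOnce.result K hK h5 D q hD hq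
  obtain ⟨η, ν, hη, hν, hE⟩ := h2 M hM
  have hq0 : (0 : ℝ) < q := by exact_mod_cast (by omega : 0 < q)
  have hC : ∀ i : ℕ, ∃ C : ℝ, ∀ X : ℝ, 1 ≤ X → (Exceptions K D q η M (1 / ((i : ℝ) + 1)) X).Finite ∧
        ((Exceptions K D q η M (1 / ((i : ℝ) + 1)) X).ncard : ℝ) ≤ C * X ^ (2 / (q : ℝ) - ν) :=
    fun i => (hE (1 / ((i : ℝ) + 1)) (by positivity)).1
  choose C hC using hC
  refine ⟨η * (q / 2), min (ν / (2 / (q : ℝ))) 1, by positivity, lt_min (by positivity) one_pos, min_le_right _ _,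
    fun v τ θ hv hτ hvτ hθ => ?_⟩
  obtain ⟨F, hF, hF0, h⟩ := Pool.Agent.V11326.WOE.scaled (ι := ℕ) (T := Projectivization K (Fin 3 → K))
    (e := 2 / (q : ℝ)) (ν := ν) (by positivity) hν C (fun i X => Exceptions K D q η M (1 / ((i : ℝ) + 1)) X) hC
    hv hτ hvτ hθ
    (fun i n => {Q | ∃ P : Fin 3 → K[X], Curve D q (η * (q / 2) * Real.log (v n)) P ∧ ∃ t : 𝓞 K × 𝓞 K × 𝓞 K,
      Triple t ∧ IsClass D P Q t ∧ 1 / ((i : ℝ) + 1) * rad t ^ M ≤ height t})
    (fun _ Q => logRad Q) (by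
      rintro i n X hvX hX Q ⟨P, hP, t, ht, hQ, hex⟩ hN
      have hX0 : 0 < X := by linarith
      have hv0 : 0 < v n := lt_of_lt_of_le one_pos (hv n)
      rw [logRad_eq hK ht hQ] at hN
      have h3 : Real.log (v n) ≤ 2 / (q : ℝ) * Real.log X := by
        have h4 := Real.log_le_log hv0 hvX
        rwa [Real.log_rpow hX0] at h4
      refine ⟨P, curve_mono hP ?_, t, ht, ?_, hQ, hex⟩
      · calc η * (q / 2) * Real.log (v n) ≤ η * (q / 2) * (2 / (q : ℝ) * Real.log X) :=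
              mul_le_mul_of_nonneg_left h3 (by positivity)
          _ = η * Real.log X := by field_simp
      · exact (Real.log_le_log_iff (rad_pos ht) hX0).1 hN)
  refine ⟨F, hF, hF0, fun β hβ c hc => ?_⟩
  obtain ⟨i, hi⟩ := exists_nat_one_div_lt hc
  obtain ⟨n₀, hn⟩ := h β hβ i
  refine ⟨n₀, fun n hnn P hP t ht hQ hw => ?_⟩
  obtain ⟨Q, hQ⟩ := hQ
  by_contra hcon
  push Not at hcon
  have hr := rad_pos ht
  refine hn n hnn Q ?_ ⟨P, hP, t, ht, hQ, ?_⟩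
  · show |Real.exp (2 / (q : ℝ) * logRad Q) - β * v n| ≤ (v n) ^ θ
    rw [logRad_eq hK ht hQ, mul_comm, ← Real.rpow_def_of_pos hr]
    exact hw
  · refine le_trans (mul_le_mul_of_nonneg_right hi.le (Real.rpow_nonneg hr.le _)) hcon

/-- **Main result.** -/
theorem result (K : Type) [Field K] [NumberField K] (hK : Module.finrank ℚ K = 2) (h5 : ∃ s : K, s ^ 2 = 5) :
    (∀ M : ℝ, 1 / 3 < M → ∃ ν : ℝ, 0 < ν ∧ ν ≤ 1 ∧ ∀ (v : ℕ → ℝ) (τ θ : ℝ), (∀ n, 1 ≤ v n) → 0 ≤ τ → ExpLe v τ →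
      θ < 1 → ∃ F : Set ℝ, dimH F ≤ ENNReal.ofReal ((1 - ν + τ) / (1 - θ)) ∧ (τ + θ < ν → volume F = 0) ∧
        ∀ β : ℝ, β ∉ F → ∀ c : ℝ, 0 < c → ∃ n₀ : ℕ, ∀ n : ℕ, n₀ ≤ n → ∀ t : 𝓞 K × 𝓞 K × 𝓞 K, Triple t →
          |rad t ^ (2 / 3 : ℝ) - β * v n| ≤ (v n) ^ θ → height t < c * rad t ^ M) ∧
    (∀ D q : ℕ, 1 ≤ D → 3 ≤ q → ∀ M : ℝ, (D : ℝ) / q < M → ∃ η ν : ℝ, 0 < η ∧ 0 < ν ∧ ν ≤ 1 ∧
      ∀ (v : ℕ → ℝ) (τ θ : ℝ), (∀ n, 1 ≤ v n) → 0 ≤ τ → ExpLe v τ → θ < 1 →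
      ∃ F : Set ℝ, dimH F ≤ ENNReal.ofReal ((1 - ν + τ) / (1 - θ)) ∧ (τ + θ < ν → volume F = 0) ∧
        ∀ β : ℝ, β ∉ F → ∀ c : ℝ, 0 < c → ∃ n₀ : ℕ, ∀ n : ℕ, n₀ ≤ n →
          ∀ P : Fin 3 → K[X], Curve D q (η * Real.log (v n)) P → ∀ t : 𝓞 K × 𝓞 K × 𝓞 K, Triple t → OnCurve D P t →
            |rad t ^ (2 / (q : ℝ)) - β * v n| ≤ (v n) ^ θ → height t < c * rad t ^ M) := by
  refine ⟨fun M hM => ?_, fun D q hD hq M hM => curves hK h5 D q hD hq M hM⟩
  obtain ⟨η, ν, hη, hν, hν1, h⟩ := curves hK h5 1 3 le_rfl le_rfl M (by norm_num at hM ⊢; exact hM)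
  refine ⟨ν, hν, hν1, fun v τ θ hv hτ hvτ hθ => ?_⟩
  obtain ⟨F, hF, hF0, h1⟩ := h v τ θ hv hτ hvτ hθ
  refine ⟨F, hF, hF0, fun β hβ c hc => ?_⟩
  obtain ⟨n₀, hn⟩ := h1 β hβ c hc
  obtain ⟨B, hB⟩ := line_curve (K := K)
  have htv : Filter.Tendsto v Filter.atTop Filter.atTop :=
    Pool.Agent.Y854.GM.tendsto_of_expLe (fun n => lt_of_lt_of_le one_pos (hv n)) hτ hvτ
  obtain ⟨n₁, hn₁⟩ := ((Filter.tendsto_atTop.1 htv (Real.exp (B / η)))).exists_forall_of_atTop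
  refine ⟨max n₀ n₁, fun n hnn t ht hw => ?_⟩
  have h2 := hn₁ n ((le_max_right _ _).trans hnn)
  have h3 : B / η ≤ Real.log (v n) := (Real.le_log_iff_exp_le (lt_of_lt_of_le one_pos (hv n))).2 h2
  rw [div_le_iff₀ hη, mul_comm] at h3
  refine hn n ((le_max_left _ _).trans hnn) (line K) (curve_mono hB h3) t ht (on_line ht) ?_
  have e : (2 / ((3 : ℕ) : ℝ)) = 2 / 3 := by norm_num
  rw [e]
  exact hw

end Pool.Agent.Results.MP_2a5a28_nt.RadicalWindows
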