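import Pool.Agent.Results.MP_2a5a28_nt.WindowsWithoutExceptions
import Pool.Agent.V11001.KM.Near

/-!
# The abc conjecture over the integers of `ℚ(√5)` near the powers of almost every real number

Let `ν n / log n → ∞`, for example `ν n = n`. For almost every real `x > 1`, all `θ < 17 / 37` and each `κ`, ALL coprime
triples `a + b + c = 0`, `abc ≠ 0`, of integers of `ℚ(√5)` with a sufficiently large height `H` such that
`|H - x ^ (ν n)| ≤ x ^ (θ ν n)` for some `n` have a radical larger than `κ H`.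
-/

set_option autoImplicit false

namespace Pool.Agent.Results.MP_2a5a28_nt.TriplesNearPowers

open NumberField IsDedekindDomain Pool.Agent.V11001.KM
open ExceptionalSet (Triple height rad)
open WindowsWithoutExceptions (Exc count)

lemma height_nonneg {K : Type} [Field K] [NumberField K] (t : 𝓞 K × 𝓞 K × 𝓞 K) : 0 ≤ height t := by
  unfold height
  exact Finset.prod_nonneg (fun φ _ => (norm_nonneg _).trans (le_max_left _ _))

/-- **Theorem.** Let `K = ℚ(√5)`, `ν n / log n → ∞` and let `B` be a countable set of real numbers.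
(1) For `θ < 1` there is a set `E` of Hausdorff dimension at most `(20 / 37) / (1 - θ)` such that for each `x > 1` outside
`E`, each positive `β` in `B` and each `κ` there is `H₀` such that ALL triples `a + b + c = 0` in lowest terms with
`abc ≠ 0` whose height `H ≥ H₀` satisfies `|H - β x ^ (ν n)| ≤ x ^ (θ ν n)` for some `n` have a radical larger than `κ H`.
(2) For almost every real `x > 1` this holds for all `θ < 17 / 37`. -/
theorem result : ∀ (K : Type) [Field K] [NumberField K], Module.finrank ℚ K = 2 → (∃ s : K, s ^ 2 = 5) →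
    ∀ ν : ℕ → ℝ, Fast ν → ∀ B : Set ℝ, B.Countable →
    (∀ θ : ℝ, θ < 1 → ∃ E : Set ℝ, dimH E ≤ ENNReal.ofReal (20 / 37 / (1 - θ)) ∧
      ∀ x : ℝ, 1 < x → x ∉ E → ∀ β ∈ B, 0 < β → ∀ κ : ℝ, ∃ H₀ : ℝ, ∀ t : 𝓞 K × 𝓞 K × 𝓞 K, Triple t →
        H₀ ≤ height t → Near ν θ β x (height t) → κ * height t < rad t) ∧
    (∀ᵐ x : ℝ, 1 < x → ∀ θ : ℝ, θ < 17 / 37 → ∀ β ∈ B, 0 < β → ∀ κ : ℝ, ∃ H₀ : ℝ, ∀ t : 𝓞 K × 𝓞 K × 𝓞 K,
      Triple t → H₀ ≤ height t → Near ν θ β x (height t) → κ * height t < rad t) := by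
  intro K _ _ hd h5 ν hν B hB
  have key : ∀ {ν : ℕ → ℝ} {θ β x κ : ℝ},
      (∀ k : ℕ, ∃ H₀ : ℝ, ∀ y ∈ Exc K (k : ℝ), Near ν θ β x y → y < H₀) →
      ∃ H₀ : ℝ, ∀ t : 𝓞 K × 𝓞 K × 𝓞 K, Triple t →
        H₀ ≤ height t → Near ν θ β x (height t) → κ * height t < rad t := by
    intro ν θ β x κ h
    obtain ⟨k, hk⟩ := exists_nat_ge κ
    obtain ⟨H₀, hH⟩ := h k
    refine ⟨H₀, fun t ht h1 h2 => ?_⟩
    by_contra hcon
    push Not at hcon
    refine absurd (hH (height t) ⟨t, ht, rfl, hcon.trans ?_⟩ h2) (not_lt.2 h1)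
    exact mul_le_mul_of_nonneg_right hk (height_nonneg t)
  refine ⟨fun θ hθ => ?_, ?_⟩
  · obtain ⟨E, h1, h2⟩ := family_threshold (fun y : ℝ => y) hν (s := 20 / 37) (by norm_num) hθ B hB (J := ℕ)
      (fun k => Exc K (k : ℝ)) (fun k ε hε => count hd h5 k ε hε)
    exact ⟨E, h1, fun x hx hxE β hβ hβ0 κ => key (h2 x hx hxE β hβ hβ0)⟩
  · filter_upwards [ae_family_threshold (fun y : ℝ => y) hν (s := 20 / 37) (by norm_num) B hB (J := ℕ)
      (fun k => Exc K (k : ℝ)) (fun k ε hε => count hd h5 k ε hε)] with x hx hx1 θ hθ β hβ hβ0 κ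
    exact key (hx hx1 θ (by linarith) β hβ hβ0)

end Pool.Agent.Results.MP_2a5a28_nt.TriplesNearPowers
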